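import Pool.Agent.Work.MP_c971ef_nt.R5.ExI

set_option autoImplicit false

/-!
# Exact indices `k n` with `p_{kn}^2 - 2` almost prime

`p_m = Nat.nth Nat.Prime (m - 1)` is the `m`-th prime.
-/

namespace Pool.Agent.Results.MP_c971ef_nt.ExactIndex

open Finset Classical in
/-- For every `C ≥ 1` there is `c > 0` such that for all large `X` at least
`c (log log X)^C X / log X` of the integers `m ≤ X` are of the form `m = k n` with `k` prime,
`exp (c (log log X)^C) ≤ k ≤ n`, and `p_{kn}^2 - 2` has at most `5 + C` prime factors, counted with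
multiplicity. -/
theorem result (C : ℕ) (hC : 1 ≤ C) : ∃ (c : ℝ) (X₀ : ℕ), 0 < c ∧ ∀ X : ℕ, X₀ ≤ X →
    c * (Real.log (Real.log X)) ^ C * (X / Real.log X) ≤ (#((Icc 1 X).filter (fun m : ℕ =>
      ∃ k n : ℕ, m = k * n ∧ k.Prime ∧ Real.exp (c * (Real.log (Real.log X)) ^ C) ≤ k ∧ k ≤ n ∧
        ArithmeticFunction.cardFactors (Nat.nth Nat.Prime (k * n - 1) ^ 2 - 2) ≤ 5 + C)) : ℝ) :=
  Pool.Agent.Work.MP_c971ef_nt.R5.exact_index C hC

end Pool.Agent.Results.MP_c971ef_nt.ExactIndex
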