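import Pool.Agent.Work.MP_c971ef_nt.R5.Inx5
import Pool.Agent.Work.MP_c971ef_nt.R5.PaA
import Pool.Agent.Work.MP_c971ef_nt.R5.PaB

set_option autoImplicit false

/-!
# The two conditions of the question near the multiples of `n`

`p_m = Nat.nth Nat.Prime (m - 1)` is the `m`-th prime.
-/

namespace Pool.Agent.Results.MP_c971ef_nt.NearMultiples

open Finset Classical in
/-- For every `L` there are `R, C, c > 0` and `N₀`, with `R = 5` for `L ≤ 1`, such that for all `N ≥ N₀` and all `K, J ≤ N` with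
`T = K J / N ≥ (log N) ^ C`:

* all but at most `N T ^ (-c)` of the integers `N < n ≤ 8 N` have `K / (log N) ^ C ≤ k ≤ K` and `j ≤ J`
  such that every prime factor of `2 k + 1` is at least `T ^ c` and, for the `L` consecutive primes
  `p = p_{kn+j}, ..., p_{kn+j+L-1}`, `p ^ 2 - 2` has at most `R` prime factors, all at least `N ^ c`;
* at least `c N log T / log N` of them have such `k` and `j` with `2 k + 1` prime.

(`K / (log N) ^ C ≥ N / J ≥ 1` by the condition on `T`.) -/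
theorem result (L : ℕ) : ∃ (R C : ℕ) (c : ℝ) (N₀ : ℕ), (L ≤ 1 → R = 5) ∧ 0 < c ∧
    ∀ N K J : ℕ, N₀ ≤ N → K ≤ N → J ≤ N → (Real.log N) ^ C ≤ (K : ℝ) * J / N →
    (#((Ioc N (8 * N)).filter (fun n => ¬ ∃ k j : ℕ, (K : ℝ) / (Real.log N) ^ C ≤ k ∧ k ≤ K ∧ j ≤ J ∧
      (∀ q : ℕ, q.Prime → q ∣ 2 * k + 1 → ((K : ℝ) * J / N) ^ c ≤ q) ∧
      ∀ i, i < L →
        ArithmeticFunction.cardFactors (Nat.nth Nat.Prime (k * n + j + i - 1) ^ 2 - 2) ≤ R ∧
        ∀ r : ℕ, r.Prime → r ∣ Nat.nth Nat.Prime (k * n + j + i - 1) ^ 2 - 2 →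
          (N : ℝ) ^ c ≤ r)) : ℝ) ≤ N * ((K : ℝ) * J / N) ^ (-c) ∧
    c * (N * (Real.log ((K : ℝ) * J / N) / Real.log N)) ≤
      (#((Ioc N (8 * N)).filter (fun n => ∃ k j : ℕ, (K : ℝ) / (Real.log N) ^ C ≤ k ∧ k ≤ K ∧ j ≤ J ∧
      (2 * k + 1).Prime ∧
      ∀ i, i < L →
        ArithmeticFunction.cardFactors (Nat.nth Nat.Prime (k * n + j + i - 1) ^ 2 - 2) ≤ R ∧
        ∀ r : ℕ, r.Prime → r ∣ Nat.nth Nat.Prime (k * n + j + i - 1) ^ 2 - 2 →
          (N : ℝ) ^ c ≤ r)) : ℝ) := by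
  obtain ⟨κ, R, δ, c₀, hR, hδ, hc₀, N₀, hidx⟩ := Pool.Agent.Work.MP_c971ef_nt.R5.index_set5 L
  obtain ⟨C₁, c₁, N₁, hc₁, h₁⟩ := PoolLS.partA_of L κ R δ c₀ hδ hc₀ N₀ hidx
  obtain ⟨C₂, c₂, N₂, hc₂, h₂⟩ := PoolLS.partB_of L κ R δ c₀ hδ hc₀ N₀ hidx
  refine ⟨R, max C₁ C₂, min c₁ c₂, max (max N₁ N₂) 3, hR, lt_min hc₁ hc₂, ?_⟩
  intro N K J hN hK hJ hT
  simp only [max_le_iff] at hN
  have hNr : (3 : ℝ) ≤ N := by exact_mod_cast hN.2
  have hlog : 1 ≤ Real.log N := by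
    rw [← Real.log_exp 1]
    apply Real.log_le_log (Real.exp_pos 1)
    have := Real.exp_one_lt_d9
    linarith
  have hT1 : (1 : ℝ) ≤ (K : ℝ) * J / N := le_trans (one_le_pow₀ hlog) hT
  have hA := h₁ N K J hN.1.1 hK hJ (le_trans (pow_le_pow_right₀ hlog (le_max_left _ _)) hT)
  have hB := h₂ N K J hN.1.2 hK hJ (le_trans (pow_le_pow_right₀ hlog (le_max_right _ _)) hT)
  have hm1 : (N : ℝ) ^ min c₁ c₂ ≤ (N : ℝ) ^ c₁ :=
    Real.rpow_le_rpow_of_exponent_le (by linarith) (min_le_left _ _)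
  have hm2 : (N : ℝ) ^ min c₁ c₂ ≤ (N : ℝ) ^ c₂ :=
    Real.rpow_le_rpow_of_exponent_le (by linarith) (min_le_right _ _)
  have hm3 : ((K : ℝ) * J / N) ^ min c₁ c₂ ≤ ((K : ℝ) * J / N) ^ c₁ :=
    Real.rpow_le_rpow_of_exponent_le hT1 (min_le_left _ _)
  have hlC : ∀ e : ℕ, e ≤ max C₁ C₂ →
      (K : ℝ) / (Real.log N) ^ max C₁ C₂ ≤ (K : ℝ) / (Real.log N) ^ e := fun e he =>
    div_le_div_of_nonneg_left (Nat.cast_nonneg K) (by positivity) (pow_le_pow_right₀ hlog he)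
  constructor
  · refine le_trans ?_ (hA.trans ?_)
    · apply Nat.cast_le.2
      apply card_le_card
      intro n hn
      rw [mem_filter] at hn ⊢
      refine ⟨hn.1, fun ⟨k, j, hk1, hk2, hj, hq, hi⟩ => hn.2 ⟨k, j,
        (hlC _ (le_max_left _ _)).trans hk1, hk2, hj,
        fun q hq1 hq2 => hm3.trans (hq q hq1 hq2), fun i hil => ⟨(hi i hil).1,
        fun r hr hd => hm1.trans ((hi i hil).2 r hr hd)⟩⟩⟩
    · apply mul_le_mul_of_nonneg_left _ (by linarith)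
      apply Real.rpow_le_rpow_of_exponent_le hT1
      exact neg_le_neg (min_le_left _ _)
  · refine le_trans ?_ (hB.trans ?_)
    · apply mul_le_mul_of_nonneg_right (min_le_right _ _)
      have := Real.log_nonneg hT1
      positivity
    · apply Nat.cast_le.2
      apply card_le_card
      intro n hn
      rw [mem_filter] at hn ⊢
      obtain ⟨hn1, k, j, hk1, hk2, hj, hp, hi⟩ := hn
      exact ⟨hn1, k, j, (hlC _ (le_max_right _ _)).trans hk1, hk2, hj, hp,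
        fun i hil => ⟨(hi i hil).1,
        fun r hr hd => hm2.trans ((hi i hil).2 r hr hd)⟩⟩

end Pool.Agent.Results.MP_c971ef_nt.NearMultiples
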