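import Pool.Agent.Work.MP_c971ef_nt.US.FinD
import Pool.Agent.Work.MP_c971ef_nt.R5.Inx5

set_option autoImplicit false

/-!
# The two conditions of the question for the exact multiples of `n`, after a common shift of the index

`p_m = Nat.nth Nat.Prime (m - 1)` is the `m`-th prime.
-/

namespace Pool.Agent.Results.MP_c971ef_nt.ShiftedIndex

open Finset Classical in
/-- For every `L` there is `R`, with `R = 5` for `L ≤ 1`, such that for every `ε > 0` there are `c > 0`, `C`, `N₀` such that for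
all `N ≥ N₀` and `N ^ ε ≤ A ≤ N` at least `A exp (-(log N)^(3/4))` of the integers `0 ≤ a < A` have this
property: all but at most `N (log N)^(-1/5)` of the integers `N < n ≤ 2 N` have `k` with
`N / (log N)^C ≤ k ≤ N` such that every prime factor of `2 k + 1` is at least `N ^ c` and, for the `L`
consecutive primes `p = p_{kn+a}, ..., p_{kn+a+L-1}`, `p ^ 2 - 2` has at most `R` prime factors, all at
least `N ^ c`. -/
theorem result (L : ℕ) : ∃ R : ℕ, (L ≤ 1 → R = 5) ∧ ∀ ε : ℝ, 0 < ε → ∃ (c : ℝ) (C N₀ : ℕ), 0 < c ∧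
    ∀ N A : ℕ, N₀ ≤ N → (N : ℝ) ^ ε ≤ A → A ≤ N →
      (A : ℝ) * Real.exp (-(Real.log N) ^ ((3 : ℝ) / 4)) ≤ #((range A).filter (fun a =>
        (#((Ioc N (2 * N)).filter (fun n => ¬ ∃ k : ℕ, (N : ℝ) / (Real.log N) ^ C ≤ k ∧ k ≤ N ∧
          (∀ q : ℕ, q.Prime → q ∣ 2 * k + 1 → (N : ℝ) ^ c ≤ q) ∧
          ∀ i, i < L →
            ArithmeticFunction.cardFactors (Nat.nth Nat.Prime (k * n + a + i - 1) ^ 2 - 2) ≤ R ∧
            ∀ r : ℕ, r.Prime → r ∣ Nat.nth Nat.Prime (k * n + a + i - 1) ^ 2 - 2 →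
              (N : ℝ) ^ c ≤ r)) : ℝ) ≤ N * (Real.log N) ^ (-(1 : ℝ) / 5))) := by
  obtain ⟨κ₀, R, δ, c₁, hR, hδ, hc₁, N₁, hN₁⟩ := Pool.Agent.Work.MP_c971ef_nt.R5.index_set5 L
  refine ⟨R, hR, fun ε hε => ?_⟩
  obtain ⟨t, N₂, ht, h⟩ := PoolUS.dense_shift κ₀ c₁ (min ε 1) hc₁ (lt_min hε one_pos)
    (min_le_right _ _)
  refine ⟨min t δ, κ₀ + 3, max (max N₁ N₂) 1, lt_min ht hδ, ?_⟩
  intro N A hN hA hAN
  simp only [max_le_iff] at hN
  obtain ⟨⟨hN1, hN2⟩, hN3⟩ := hN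
  have hN1r : (1 : ℝ) ≤ N := by exact_mod_cast hN3
  have hsq : N ≤ N ^ 2 := Nat.le_self_pow (by norm_num) N
  obtain ⟨M, hM, hMI, hMc⟩ := hN₁ (N ^ 2) (hN1.trans hsq)
  have hA' : (N : ℝ) ^ (min ε 1) ≤ A :=
    (Real.rpow_le_rpow_of_exponent_le hN1r (min_le_left _ _)).trans hA
  refine (h N A M hN2 hA' hAN hM hMc).trans ?_
  refine Nat.cast_le.2 (card_le_card ?_)
  intro a ha
  obtain ⟨ha1, ha2⟩ := mem_filter.1 ha
  refine mem_filter.2 ⟨ha1, le_trans ?_ ha2⟩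
  refine Nat.cast_le.2 (card_le_card ?_)
  intro n hn
  obtain ⟨hn1, hn2⟩ := mem_filter.1 hn
  refine mem_filter.2 ⟨hn1, fun hex => hn2 ?_⟩
  obtain ⟨k, hk1, hk2, hk3, hk4⟩ := hex
  have hc1 : (N : ℝ) ^ (min t δ) ≤ (N : ℝ) ^ t :=
    Real.rpow_le_rpow_of_exponent_le hN1r (min_le_left _ _)
  have hc2 : (N : ℝ) ^ (min t δ) ≤ ((N ^ 2 : ℕ) : ℝ) ^ δ := by
    refine (Real.rpow_le_rpow_of_exponent_le hN1r (min_le_right _ _)).trans ?_
    exact Real.rpow_le_rpow (by linarith) (by exact_mod_cast hsq) hδ.le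
  refine ⟨k, hk1, hk2, fun q hq hqd => hc1.trans (hk3 q hq hqd), fun i hi => ?_⟩
  obtain ⟨h1, h2⟩ := hMI _ hk4 i hi
  exact ⟨h1, fun r hr hrd => hc2.trans (h2 r hr hrd)⟩

end Pool.Agent.Results.MP_c971ef_nt.ShiftedIndex
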