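import Pool.Agent.Work.MP_c971ef_nt.TP.Fin
import Pool.Agent.Work.MP_c971ef_nt.TP.Five

set_option autoImplicit false

/-!
# Every `n`, `2 k + 1` prime, for the primes outside a very thin set

`q_m = Nat.nth (fun p => p.Prime ∧ p ∉ D) (m - 1)` is the `m`-th prime not in `D`.
-/

namespace Pool.Agent.Results.MP_c971ef_nt.ThinnedPrimes

open Finset Classical in
/-- For every `L` there is `R` (`R = 5` for `L ≤ 1`) and ONE set `D` of primes which has at most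
`C_B x / (log x) ^ B` elements up to `x`, for every `B`, such that for the primes `q_1 < q_2 < ...` not in
`D`, for EVERY positive integer `n` there is `k` with `n / C₀ ≤ k ≤ n` such that `2 k + 1` is PRIME and,
for `p = q_{kn}, ..., q_{kn+L-1}`, `p ^ 2 - 2` has at most `R` prime factors, all at least `n ^ θ`
(`θ > 0`). -/
theorem result (L : ℕ) : ∃ R : ℕ, (L ≤ 1 → R = 5) ∧ ∃ (θ : ℝ) (C₀ : ℕ) (D : Set ℕ), 0 < θ ∧
    (∀ p ∈ D, p.Prime) ∧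
    (∀ B : ℕ, ∃ C : ℝ, ∀ x : ℕ, 2 ≤ x →
      (#((range (x + 1)).filter (fun p => p ∈ D)) : ℝ) ≤ C * (x / (Real.log x) ^ B)) ∧
    ∀ n : ℕ, 1 ≤ n → ∃ k : ℕ, 1 ≤ k ∧ k ≤ n ∧ n ≤ C₀ * k ∧ (2 * k + 1).Prime ∧
      ∀ j, j < L → ArithmeticFunction.cardFactors
        (Nat.nth (fun p => p.Prime ∧ p ∉ D) (k * n + j - 1) ^ 2 - 2) ≤ R ∧
        ∀ r : ℕ, r.Prime → r ∣ Nat.nth (fun p => p.Prime ∧ p ∉ D) (k * n + j - 1) ^ 2 - 2 →
          (n : ℝ) ^ θ ≤ r := by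
  obtain ⟨L', R, κ, δ, c, hR, hL, hL1, hδ, hc, h⟩ := PoolTP.blk_all L
  obtain ⟨θ, C₀, D, hθ, hD, hcard, hn⟩ := PoolTP.thin_all L' R κ δ c hL1 hδ hc h
  refine ⟨R, hR, θ, C₀, D, hθ, hD, hcard, fun n hn1 => ?_⟩
  obtain ⟨k, h1, h2, h3, h4, h5⟩ := hn n hn1
  exact ⟨k, h1, h2, h3, h4, fun j hj => h5 j (by omega)⟩

end Pool.Agent.Results.MP_c971ef_nt.ThinnedPrimes
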